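import Pool.Agent.Helper607.Wild.Final

set_option autoImplicit false

namespace Pool.Agent.Results.MP_9fe036_gt.NoSphereBetween

/-- A topological sphere: a subset of `ℝ³` homeomorphic to the unit sphere of `ℝ³`. -/
def IsTopSphere (S : Set (EuclideanSpace ℝ (Fin 3))) : Prop :=
  Nonempty (S ≃ₜ Metric.sphere (0 : EuclideanSpace ℝ (Fin 3)) 1)

/-- The interior of `S`: the points off `S` whose component in the complement of `S` is
bounded. -/
def inside (S : Set (EuclideanSpace ℝ (Fin 3))) : Set (EuclideanSpace ℝ (Fin 3)) :=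
  {x | x ∉ S ∧ Bornology.IsBounded (connectedComponentIn Sᶜ x)}

/-- There are nested topological spheres `S₂ ⊆ int S₁` in `ℝ³` such that no topological sphere
`S₃` satisfies `S₂ ⊆ int S₃` and `S₃ ⊆ int S₁`. -/
theorem result : ∃ S₁ S₂ : Set (EuclideanSpace ℝ (Fin 3)),
    IsTopSphere S₁ ∧ IsTopSphere S₂ ∧ S₂ ⊆ inside S₁ ∧
      ¬ ∃ S₃ : Set (EuclideanSpace ℝ (Fin 3)),
        IsTopSphere S₃ ∧ S₂ ⊆ inside S₃ ∧ S₃ ⊆ inside S₁ := by
  obtain ⟨f₁, f₂, f₃, h1, h1', h2, h2', h3, h3', h32, h21, hno12, hno23⟩ :=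
    Pool.Agent.Helper607.Wild.the_three
  obtain ⟨g₁, g₂, k1, k1', k2, k2', k21, kno⟩ :=
    Pool.Agent.Helper607.Wild.transfer_two f₁ f₂ h1 h1' h2 h2' h21 hno12
  refine ⟨Set.range g₁, Set.range g₂, ⟨?_⟩, ⟨?_⟩, k21, ?_⟩
  · exact ((k1.isClosedEmbedding k1').isEmbedding.toHomeomorph).symm
  · exact ((k2.isClosedEmbedding k2').isEmbedding.toHomeomorph).symm
  · rintro ⟨S₃, ⟨e⟩, h23, h31⟩
    apply kno
    refine ⟨fun x => (e.symm x : EuclideanSpace ℝ (Fin 3)),
      continuous_subtype_val.comp e.symm.continuous,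
      Subtype.val_injective.comp e.symm.injective, ?_, ?_⟩
    · have hr : Set.range (fun x => (e.symm x : EuclideanSpace ℝ (Fin 3))) = S₃ := by
        ext y
        constructor
        · rintro ⟨x, rfl⟩
          exact (e.symm x).2
        · intro hy
          exact ⟨e ⟨y, hy⟩, by simp⟩
      rw [hr]
      exact h23
    · have hr : Set.range (fun x => (e.symm x : EuclideanSpace ℝ (Fin 3))) = S₃ := by
        ext y
        constructor
        · rintro ⟨x, rfl⟩
          exact (e.symm x).2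
        · intro hy
          exact ⟨e ⟨y, hy⟩, by simp⟩
      rw [hr]
      exact h31

end Pool.Agent.Results.MP_9fe036_gt.NoSphereBetween
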